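import Mathlib

/-!
# An Ulrich partition of type `(1, 4, 12)`

The sequence
`(0 | -28, -29, -36, -37 | -38, -40, -42, -44, -54, -60, -70, -76, -86, -88, -90, -92)`
is an Ulrich partition of type `(1, 4, 12)`, of dimension `64`.  So there are Ulrich partitions of
type `(α, β, γ)` with `β ≥ 3` and `γ ≥ 3`, even with `α = 1`.
-/

set_option autoImplicit false

namespace Pool.Agent.Results.MP_ff76d6_ag.UlrichType1x4x12

/-- A partition of type `(α, β, γ)`: a strictly decreasing sequence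
`a_1 > ... > a_α > b_1 > ... > b_β > c_1 > ... > c_γ` of integers, given by its three blocks. -/
def IsPartition {α β γ : ℕ} (a : Fin α → ℤ) (b : Fin β → ℤ) (c : Fin γ → ℤ) : Prop :=
  (∀ i j : Fin α, i < j → a j < a i) ∧ (∀ i j : Fin β, i < j → b j < b i) ∧
    (∀ i j : Fin γ, i < j → c j < c i) ∧ (∀ (i : Fin α) (j : Fin β), b j < a i) ∧
    (∀ (j : Fin β) (k : Fin γ), c k < b j)

/-- The sequence `P(t)`: subtract `2 t` from the first block, `t` from the second block and nothing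
from the third block.  It is indexed by the disjoint union of the three index sets. -/
def shifted {α β γ : ℕ} (a : Fin α → ℤ) (b : Fin β → ℤ) (c : Fin γ → ℤ) (t : ℤ) :
    Fin α ⊕ Fin β ⊕ Fin γ → ℤ :=
  Sum.elim (fun i => a i - 2 * t) (Sum.elim (fun j => b j - t) c)

/-- The partition is Ulrich: for every `t` in `{1, ..., N}`, `N = α β + α γ + β γ`, the sequence
`P(t)` has two equal entries. -/
def IsUlrich {α β γ : ℕ} (a : Fin α → ℤ) (b : Fin β → ℤ) (c : Fin γ → ℤ) : Prop :=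
  IsPartition a b c ∧
    ∀ t : ℤ, 1 ≤ t → t ≤ (α * β + α * γ + β * γ : ℕ) →
      ∃ x y : Fin α ⊕ Fin β ⊕ Fin γ, x ≠ y ∧ shifted a b c t x = shifted a b c t y

/-- The first block. -/
def a₀ : Fin 1 → ℤ := ![0]

/-- The second block. -/
def b₀ : Fin 4 → ℤ := ![-28, -29, -36, -37]

/-- The third block. -/
def c₀ : Fin 12 → ℤ := ![-38, -40, -42, -44, -54, -60, -70, -76, -86, -88, -90, -92]

theorem partition₀ : IsPartition a₀ b₀ c₀ := by
  unfold IsPartition
  refine ⟨by decide, by decide, by decide, by decide, by decide⟩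

theorem ulrich₀ : IsUlrich a₀ b₀ c₀ := by
  refine ⟨partition₀, ?_⟩
  have key : ∀ s : Fin 64, ∃ x y : Fin 1 ⊕ Fin 4 ⊕ Fin 12,
      x ≠ y ∧ shifted a₀ b₀ c₀ ((s.1 : ℤ) + 1) x = shifted a₀ b₀ c₀ ((s.1 : ℤ) + 1) y := by
    decide +kernel
  intro t h1 h2
  have h2' : t ≤ 64 := by simpa using h2
  obtain ⟨s, hs⟩ : ∃ s : Fin 64, ((s.1 : ℤ) + 1) = t := by
    refine ⟨⟨(t - 1).toNat, by omega⟩, ?_⟩
    simp only
    omega
  rw [← hs]
  exact key s

/-- The negated form of the question: there are `α ≥ 1`, `β ≥ 3`, `γ ≥ 3` and an Ulrich partition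
of type `(α, β, γ)`.  There is one with `(α, β, γ) = (1, 4, 12)`. -/
theorem result :
    (∃ α β γ : ℕ, 1 ≤ α ∧ 3 ≤ β ∧ 3 ≤ γ ∧
      ∃ (a : Fin α → ℤ) (b : Fin β → ℤ) (c : Fin γ → ℤ), IsUlrich a b c) ∧
    ∃ (a : Fin 1 → ℤ) (b : Fin 4 → ℤ) (c : Fin 12 → ℤ), IsUlrich a b c :=
  ⟨⟨1, 4, 12, by norm_num, by norm_num, by norm_num, a₀, b₀, c₀, ulrich₀⟩, a₀, b₀, c₀, ulrich₀⟩

end Pool.Agent.Results.MP_ff76d6_ag.UlrichType1x4x12
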